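import Pool.Agent.D0H42.SFK.Grp
import Pool.Agent.D0H42.SF.Ex
import Pool.Agent.D0H15.SK.Basic

/-!
# Project SFK (helper15), module SN: a congruence condition over a number field which forces `S_n`
-/

set_option autoImplicit false

namespace Pool.Agent.D0H42.SFK

open Polynomial NumberField

lemma exists_irred (k : Type) [Field k] [Finite k] (p : ℕ) [hp : Fact p.Prime] [CharP k p] (d : ℕ)
    (hd : d ≠ 0) : ∃ h : k[X], h.Monic ∧ Irreducible h ∧ h.natDegree = d := by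
  have : NeZero d := ⟨hd⟩
  obtain ⟨α, hα⟩ := Field.exists_primitive_element k (FiniteField.Extension k p d)
  have hint : IsIntegral k α := Algebra.IsIntegral.isIntegral α
  refine ⟨minpoly k α, minpoly.monic hint, minpoly.irreducible hint, ?_⟩
  rw [(Field.primitive_element_iff_minpoly_natDegree_eq k α).1 hα,
    FiniteField.finrank_extension k p d]

section ex

variable (k : Type) [Field k] [Finite k] (p : ℕ) [hp : Fact p.Prime] [CharP k p] (n : ℕ)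

omit [Finite k] in
lemma cast_ne (m : ℕ) (h0 : 0 < m) (hm : m < p) : ((m : ℕ) : k) ≠ 0 := by
  rw [Ne, CharP.cast_eq_zero_iff k p]
  exact fun h => absurd (Nat.le_of_dvd h0 h) (by omega)

lemma exA (hn : 4 ≤ n) (hnp : n < p) :
    ∃ g : k[X], g.Monic ∧ g.natDegree = n ∧ g.coeff (n - 1) = 0 ∧ Irreducible g := by
  obtain ⟨h, hm, hi, hd⟩ := exists_irred k p n (by omega)
  obtain ⟨m, rfl⟩ : ∃ m, n = m + 1 := ⟨n - 1, by omega⟩
  have hk : ((m + 1 : ℕ) : k) ≠ 0 := cast_ne k p (m + 1) (by omega) hnp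
  obtain ⟨s, hs⟩ := Pool.Agent.D0H42.SF.exists_shift k m hk h hm hd
  refine ⟨taylor s h, ?_, ?_, ?_, ?_⟩
  · rw [Monic, leadingCoeff_taylor]
    exact hm
  · rw [natDegree_taylor, hd]
  · exact hs
  · exact (MulEquiv.irreducible_iff (taylorEquiv s)).2 hi

lemma exB (hn : 4 ≤ n) (hnp : n < p) :
    ∃ g : k[X], g.Monic ∧ g.natDegree = n ∧ g.coeff (n - 1) = 0 ∧ TB k g := by
  obtain ⟨h, hm, hi, hd⟩ := exists_irred k p (n - 1) (by omega)
  obtain ⟨m, rfl⟩ : ∃ m, n = m + 1 := ⟨n - 1, by omega⟩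
  have hk : ((m + 1 : ℕ) : k) ≠ 0 := cast_ne k p (m + 1) (by omega) hnp
  have hm' : (X * h).Monic := monic_X.mul hm
  have hd' : (X * h).natDegree = m + 1 := by
    rw [monic_X.natDegree_mul hm, natDegree_X, hd]
    omega
  obtain ⟨s, hs⟩ := Pool.Agent.D0H42.SF.exists_shift k m hk _ hm' hd'
  refine ⟨taylor s (X * h), ?_, ?_, ?_, ?_⟩
  · rw [Monic, leadingCoeff_taylor]
    exact hm'
  · rw [natDegree_taylor, hd']
  · exact hs
  · refine ⟨-s, taylor s h, (MulEquiv.irreducible_iff (taylorEquiv s)).2 hi, ?_, ?_⟩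
    · rw [natDegree_taylor, hd]
      omega
    · rw [taylor_mul, taylor_X, C_neg, sub_neg_eq_add]

lemma exC (hn : 4 ≤ n) (hnp : n < p) :
    ∃ g : k[X], g.Monic ∧ g.natDegree = n ∧ g.coeff (n - 1) = 0 ∧ TC k (n - 2) g := by
  obtain ⟨h, hm, hi, hd⟩ := exists_irred k p 2 (by omega)
  obtain ⟨m, rfl⟩ : ∃ m, n = m + 1 := ⟨n - 1, by omega⟩
  have hk : ((m + 1 : ℕ) : k) ≠ 0 := cast_ne k p (m + 1) (by omega) hnp
  let c : Fin (m + 1 - 2) → k := fun i => ((i : ℕ) : k)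
  have hc : Function.Injective c := by
    intro i j hij
    have h1 : ((i : ℕ) : k) = ((j : ℕ) : k) := hij
    rw [CharP.natCast_eq_natCast k p] at h1
    have h2 : (i : ℕ) % p = (j : ℕ) % p := h1
    rw [Nat.mod_eq_of_lt (by omega), Nat.mod_eq_of_lt (by omega)] at h2
    exact Fin.ext h2
  have hmp : (∏ i, (X - C (c i)) : k[X]).Monic :=
    monic_prod_of_monic _ _ fun i _ => monic_X_sub_C _
  have hm' : (h * ∏ i, (X - C (c i))).Monic := hm.mul hmp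
  have hd' : (h * ∏ i, (X - C (c i))).natDegree = m + 1 := by
    rw [hm.natDegree_mul hmp, hd, natDegree_prod_of_monic _ _ fun i _ => monic_X_sub_C _]
    simp only [natDegree_X_sub_C, Finset.sum_const, Finset.card_univ, Fintype.card_fin,
      smul_eq_mul, mul_one]
    omega
  obtain ⟨s, hs⟩ := Pool.Agent.D0H42.SF.exists_shift k m hk _ hm' hd'
  refine ⟨taylor s (h * ∏ i, (X - C (c i))), ?_, ?_, ?_, ?_⟩
  · rw [Monic, leadingCoeff_taylor]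
    exact hm'
  · rw [natDegree_taylor, hd']
  · exact hs
  · refine ⟨taylor s h, fun i => c i - s, (MulEquiv.irreducible_iff (taylorEquiv s)).2 hi, ?_, ?_,
      ?_⟩
    · rw [natDegree_taylor, hd]
    · intro i j hij
      exact hc (sub_left_injective hij)
    · rw [taylor_mul]
      congr 1
      have h1 : taylorEquiv s (∏ i, (X - C (c i))) = ∏ i, taylorEquiv s (X - C (c i)) :=
        map_prod _ _ _
      refine h1.trans (Finset.prod_congr rfl fun i _ => ?_)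
      change taylor s (X - C (c i)) = _
      rw [map_sub, taylor_X, taylor_C, C_sub]
      ring

end ex

/-- a maximal ideal over a rational prime -/
lemma exists_over (K : Type) [Field K] [NumberField K] (p : ℕ) [hp : Fact p.Prime] :
    ∃ P : Ideal (𝓞 K), P.IsMaximal ∧ P ≠ ⊥ ∧ (p : 𝓞 K) ∈ P := by
  have hmax : (Ideal.span {(p : ℤ)}).IsMaximal := by
    apply PrincipalIdealRing.isMaximal_of_irreducible
    exact (Nat.prime_iff_prime_int.1 hp.out).irreducible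
  obtain ⟨P, hP, hPl⟩ := Ideal.exists_maximal_ideal_liesOver_of_isIntegral (S := 𝓞 K)
    (Ideal.span {(p : ℤ)})
  have hpP : (p : 𝓞 K) ∈ P := by
    have h1 : (p : ℤ) ∈ P.under ℤ := by
      rw [← hPl.over]
      exact Ideal.mem_span_singleton_self _
    rw [Ideal.under_def, Ideal.mem_comap] at h1
    simpa using h1
  refine ⟨P, hP, ?_, hpP⟩
  rintro rfl
  rw [Ideal.mem_bot] at hpP
  exact hp.out.ne_zero (by exact_mod_cast hpP)

/-- Chinese remainder theorem -/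
lemma crt3 (R : Type) [CommRing R] (P₁ P₂ P₃ : Ideal R) (p₁ p₂ p₃ : ℕ) (h1 : p₁.Prime)
    (h2 : p₂.Prime) (h3 : p₃.Prime) (h12 : p₁ ≠ p₂) (h13 : p₁ ≠ p₃) (h23 : p₂ ≠ p₃)
    (m1 : (p₁ : R) ∈ P₁) (m2 : (p₂ : R) ∈ P₂) (m3 : (p₃ : R) ∈ P₃)
    (x₁ : R ⧸ P₁) (x₂ : R ⧸ P₂) (x₃ : R ⧸ P₃) :
    ∃ x : R, Ideal.Quotient.mk P₁ x = x₁ ∧ Ideal.Quotient.mk P₂ x = x₂ ∧
      Ideal.Quotient.mk P₃ x = x₃ := by
  have key : ∀ (P : Ideal R) (p : ℕ), (p : R) ∈ P → ∀ (u v : ℤ), ((u : ℤ) : ZMod p) = (v : ZMod p) →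
      Ideal.Quotient.mk P (u : R) = Ideal.Quotient.mk P (v : R) := by
    intro P p hp u v huv
    rw [← sub_eq_zero, ← Int.cast_sub, ZMod.intCast_zmod_eq_zero_iff_dvd] at huv
    obtain ⟨w, hw⟩ := huv
    rw [Ideal.Quotient.eq]
    have h4 : ((u : R) - (v : R)) = (p : R) * (w : R) := by
      rw [← Int.cast_sub, hw]
      push_cast
      ring
    rw [h4]
    exact Ideal.mul_mem_right _ _ hp
  obtain ⟨u₁, a1, a2, a3⟩ := Pool.Agent.D0H42.SF.crt3 p₁ p₂ p₃ h1 h2 h3 h12 h13 h23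
    ((1 : ℤ) : ZMod p₁) ((0 : ℤ) : ZMod p₂) ((0 : ℤ) : ZMod p₃)
  obtain ⟨u₂, b1, b2, b3⟩ := Pool.Agent.D0H42.SF.crt3 p₁ p₂ p₃ h1 h2 h3 h12 h13 h23
    ((0 : ℤ) : ZMod p₁) ((1 : ℤ) : ZMod p₂) ((0 : ℤ) : ZMod p₃)
  obtain ⟨u₃, c1, c2, c3⟩ := Pool.Agent.D0H42.SF.crt3 p₁ p₂ p₃ h1 h2 h3 h12 h13 h23
    ((0 : ℤ) : ZMod p₁) ((0 : ℤ) : ZMod p₂) ((1 : ℤ) : ZMod p₃)
  obtain ⟨y₁, rfl⟩ := Ideal.Quotient.mk_surjective x₁
  obtain ⟨y₂, rfl⟩ := Ideal.Quotient.mk_surjective x₂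
  obtain ⟨y₃, rfl⟩ := Ideal.Quotient.mk_surjective x₃
  refine ⟨(u₁ : R) * y₁ + (u₂ : R) * y₂ + (u₃ : R) * y₃, ?_, ?_, ?_⟩
  · rw [map_add, map_add, map_mul, map_mul, map_mul, key P₁ p₁ m1 _ _ a1, key P₁ p₁ m1 _ _ b1,
      key P₁ p₁ m1 _ _ c1]
    simp
  · rw [map_add, map_add, map_mul, map_mul, map_mul, key P₂ p₂ m2 _ _ a2, key P₂ p₂ m2 _ _ b2,
      key P₂ p₂ m2 _ _ c2]
    simp
  · rw [map_add, map_add, map_mul, map_mul, map_mul, key P₃ p₃ m3 _ _ a3, key P₃ p₃ m3 _ _ b3,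
      key P₃ p₃ m3 _ _ c3]
    simp

open Pool.Agent.D0H15.SK

lemma pol_map (K : Type) [Field K] [NumberField K] (k : Type) [CommRing k] (φ : 𝓞 K →+* k) (n : ℕ)
    (hn : 2 ≤ n) (g : k[X]) (hg : g.Monic)
    (hd : g.natDegree = n) (hc : g.coeff (n - 1) = 0) (a : Fin (n - 1) → 𝓞 K)
    (ha : ∀ i : Fin (n - 1), φ (a i) = g.coeff (i : ℕ)) :
    (pol n a).map φ = g := by
  have hm := pol_monic n hn a
  have hd' := pol_natDegree n hn a
  ext i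
  rw [coeff_map]
  rcases lt_trichotomy i n with h | h | h
  · rcases Nat.lt_or_ge i (n - 1) with h1 | h1
    · have h2 := pol_coeff n a ⟨i, h1⟩
      have h3 := ha ⟨i, h1⟩
      simp only at h2 h3
      rw [h2, ← h3]
    · have h2 : i = n - 1 := by omega
      rw [h2, hc, pol_coeff_pred n hn a, map_zero]
  · subst h
    have h4 := hm.coeff_natDegree
    have h5 := hg.coeff_natDegree
    rw [hd'] at h4
    rw [hd] at h5
    rw [h4, h5, map_one]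
  · rw [coeff_eq_zero_of_natDegree_lt (by omega), coeff_eq_zero_of_natDegree_lt (by omega),
      map_zero]

/-- a congruence condition which forces the Galois group `S_n` -/
theorem t_SN : S_SN := by
  intro K _ _ n hn
  obtain ⟨p₁, hp1, hP1⟩ := Nat.exists_infinite_primes (n + 1)
  obtain ⟨p₂, hp2, hP2⟩ := Nat.exists_infinite_primes (p₁ + 1)
  obtain ⟨p₃, hp3, hP3⟩ := Nat.exists_infinite_primes (p₂ + 1)
  have f1 : Fact p₁.Prime := ⟨hP1⟩
  have f2 : Fact p₂.Prime := ⟨hP2⟩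
  have f3 : Fact p₃.Prime := ⟨hP3⟩
  obtain ⟨P₁, M1, n1, q1⟩ := exists_over K p₁
  obtain ⟨P₂, M2, n2, q2⟩ := exists_over K p₂
  obtain ⟨P₃, M3, n3, q3⟩ := exists_over K p₃
  letI I1 : Field (𝓞 K ⧸ P₁) := Ideal.Quotient.field P₁
  letI I2 : Field (𝓞 K ⧸ P₂) := Ideal.Quotient.field P₂
  letI I3 : Field (𝓞 K ⧸ P₃) := Ideal.Quotient.field P₃
  have F1 : Finite (𝓞 K ⧸ P₁) := Ring.HasFiniteQuotients.finiteQuotient n1
  have F2 : Finite (𝓞 K ⧸ P₂) := Ring.HasFiniteQuotients.finiteQuotient n2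
  have F3 : Finite (𝓞 K ⧸ P₃) := Ring.HasFiniteQuotients.finiteQuotient n3
  have C1 : CharP (𝓞 K ⧸ P₁) p₁ := by
    apply (CharP.charP_iff_prime_eq_zero hP1).mpr
    have h1 : (Ideal.Quotient.mk P₁) (p₁ : 𝓞 K) = 0 := Ideal.Quotient.eq_zero_iff_mem.mpr q1
    rwa [map_natCast] at h1
  have C2 : CharP (𝓞 K ⧸ P₂) p₂ := by
    apply (CharP.charP_iff_prime_eq_zero hP2).mpr
    have h1 : (Ideal.Quotient.mk P₂) (p₂ : 𝓞 K) = 0 := Ideal.Quotient.eq_zero_iff_mem.mpr q2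
    rwa [map_natCast] at h1
  have C3 : CharP (𝓞 K ⧸ P₃) p₃ := by
    apply (CharP.charP_iff_prime_eq_zero hP3).mpr
    have h1 : (Ideal.Quotient.mk P₃) (p₃ : 𝓞 K) = 0 := Ideal.Quotient.eq_zero_iff_mem.mpr q3
    rwa [map_natCast] at h1
  obtain ⟨g₁, m1, d1, c1, t1⟩ := exA (𝓞 K ⧸ P₁) p₁ n hn (by omega)
  obtain ⟨g₂, m2, d2, c2, t2⟩ := exB (𝓞 K ⧸ P₂) p₂ n hn (by omega)
  obtain ⟨g₃, m3, d3, c3, t3⟩ := exC (𝓞 K ⧸ P₃) p₃ n hn (by omega)
  choose a0 ha1 ha2 ha3 using fun i : Fin (n - 1) =>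
    crt3 (𝓞 K) P₁ P₂ P₃ p₁ p₂ p₃ hP1 hP2 hP3 (by omega) (by omega) (by omega) q1 q2 q3
      (g₁.coeff (i : ℕ)) (g₂.coeff (i : ℕ)) (g₃.coeff (i : ℕ))
  refine ⟨p₁ * p₂ * p₃, ?_, a0, ?_⟩
  · exact Nat.mul_pos (Nat.mul_pos hP1.pos hP2.pos) hP3.pos
  intro a ha
  have hcast : ∀ (P : Ideal (𝓞 K)) (p : ℕ), (p : 𝓞 K) ∈ P → p ∣ p₁ * p₂ * p₃ →
      ∀ i, Ideal.Quotient.mk P (a i) = Ideal.Quotient.mk P (a0 i) := by
    intro P p hpP hp i
    rw [Ideal.Quotient.eq]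
    obtain ⟨w, hw⟩ := ha i
    obtain ⟨v, hv⟩ := hp
    rw [hw, hv]
    push_cast
    rw [mul_assoc]
    exact Ideal.mul_mem_right _ _ hpP
  have e1 := pol_map K _ (Ideal.Quotient.mk P₁) n (by omega) g₁ m1 d1 c1 a (fun i => by
    rw [hcast P₁ p₁ q1 ⟨p₂ * p₃, by ring⟩ i, ha1])
  have e2 := pol_map K _ (Ideal.Quotient.mk P₂) n (by omega) g₂ m2 d2 c2 a (fun i => by
    rw [hcast P₂ p₂ q2 ⟨p₁ * p₃, by ring⟩ i, ha2])
  have e3 := pol_map K _ (Ideal.Quotient.mk P₃) n (by omega) g₃ m3 d3 c3 a (fun i => by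
    rw [hcast P₃ p₃ q3 ⟨p₁ * p₂, by ring⟩ i, ha3])
  have hm := pol_monic n (by omega) a
  have hirrZ : Irreducible (pol n a) :=
    hm.irreducible_of_irreducible_map (Ideal.Quotient.mk P₁) _ (by rw [e1]; exact t1)
  have hirr : Irreducible (polK n a) :=
    (hm.irreducible_iff_irreducible_map_fraction_map (K := K)).1 hirrZ
  refine ⟨hirr, fun θ hθ => ?_⟩
  exact main_sym K (pol n a) hm hirr P₂ P₃ (n - 2) n2 n3 (by rw [e2]; exact t2)
    (by rw [e3]; exact t3) θ hθ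

end Pool.Agent.D0H42.SFK
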