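import Pool.Agent.D0H42.SF.Grp

/-!
# Project SFK (helper15), module SN: Frobenius permutations over a number field
-/

set_option autoImplicit false

namespace Pool.Agent.D0H42.SFK

open Polynomial NumberField

/-- a Frobenius element of a Galois extension of number fields -/
theorem exists_frob (K L : Type) [Field K] [NumberField K] [Field L] [NumberField L] [Algebra K L]
    [IsGalois K L] (𝔭 : Ideal (𝓞 K)) [h𝔭 : 𝔭.IsMaximal] (h0 : 𝔭 ≠ ⊥) :
    ∃ P : Ideal (𝓞 L), P.IsMaximal ∧ P.LiesOver 𝔭 ∧ Finite (𝓞 L ⧸ P) ∧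
      ∃ σ : Gal(L/K), ∀ z : 𝓞 L, σ • z - z ^ Nat.card (𝓞 K ⧸ 𝔭) ∈ P := by
  obtain ⟨P, hP, hPl⟩ := Ideal.exists_maximal_ideal_liesOver_of_isIntegral (S := 𝓞 L) 𝔭
  have hP0 : P ≠ ⊥ := Ideal.ne_bot_of_liesOver_of_ne_bot h0 P
  have hfin : Finite (𝓞 L ⧸ P) := Ring.HasFiniteQuotients.finiteQuotient hP0
  refine ⟨P, hP, hPl, hfin, ?_⟩
  obtain ⟨σ, hσ⟩ := IsArithFrobAt.exists_of_isInvariant (𝓞 K) Gal(L/K) P
  refine ⟨σ, fun z => ?_⟩
  have h2 := hσ z
  rw [← hPl.over] at h2
  exact h2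

theorem algcl (K : Type) [Field K] : IsAlgClosure K (AlgebraicClosure K) := inferInstance

/-- the Frobenius permutation of the roots of an integral polynomial which is separable mod `𝔭` -/
theorem frob_roots (K : Type) [Field K] [NumberField K] (f : (𝓞 K)[X]) (hf : f.Monic) (n : ℕ)
    (α : Fin n → AlgebraicClosure K)
    (hα : f.map (algebraMap (𝓞 K) (AlgebraicClosure K)) = ∏ i, (X - C (α i)))
    (𝔭 : Ideal (𝓞 K)) [h𝔭 : 𝔭.IsMaximal] (h0 : 𝔭 ≠ ⊥)
    (hsep : (f.map (Ideal.Quotient.mk 𝔭)).Separable) :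
    ∃ (F : Type) (_ : Field F) (_ : Finite F) (_ : Algebra (𝓞 K ⧸ 𝔭) F) (r : Fin n → F)
      (s : Equiv.Perm (Fin n)) (σ : AlgebraicClosure K ≃ₐ[K] AlgebraicClosure K),
      Function.Injective r ∧
      (f.map (Ideal.Quotient.mk 𝔭)).map (algebraMap (𝓞 K ⧸ 𝔭) F) = ∏ i, (X - C (r i)) ∧
      (∀ i, σ (α i) = α (s i)) ∧ ∀ i, r (s i) = r i ^ Nat.card (𝓞 K ⧸ 𝔭) := by
  classical
  let Ω := AlgebraicClosure K
  set fQ : K[X] := f.map (algebraMap (𝓞 K) K) with hfQ
  have hfQm : fQ.Monic := hf.map _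
  have hcomp : (algebraMap K (AlgebraicClosure K)).comp (algebraMap (𝓞 K) K)
      = algebraMap (𝓞 K) (AlgebraicClosure K) := (IsScalarTower.algebraMap_eq _ _ _).symm
  have hfQα : fQ.map (algebraMap K (AlgebraicClosure K)) = ∏ i, (X - C (α i)) := by
    rw [← hα, hfQ, Polynomial.map_map, hcomp]
  have hsp : (fQ.map (algebraMap K (AlgebraicClosure K))).Splits := IsAlgClosed.splits _
  let L := IntermediateField.adjoin K (fQ.rootSet (AlgebraicClosure K))
  have hspl : fQ.IsSplittingField K L := IntermediateField.adjoin_rootSet_isSplittingField hsp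
  have hfd : FiniteDimensional K L := IsSplittingField.finiteDimensional L fQ
  have hnf : NumberField L := NumberField.of_module_finite K L
  have hnor : Normal K L := Normal.of_isSplittingField fQ
  have hgal : IsGalois K L := { }
  have hev : ∀ i, eval (α i) (∏ j, (X - C (α j))) = 0 := by
    intro i
    rw [eval_prod]
    apply Finset.prod_eq_zero (Finset.mem_univ i)
    simp
  have hmem : ∀ i, α i ∈ L := by
    intro i
    apply IntermediateField.subset_adjoin
    rw [mem_rootSet]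
    refine ⟨hfQm.ne_zero, ?_⟩
    rw [aeval_def, ← eval_map, hfQα]
    exact hev i
  have hcL : (algebraMap L (AlgebraicClosure K)).comp (algebraMap (𝓞 K) L)
      = algebraMap (𝓞 K) (AlgebraicClosure K) := by
    ext x
    rfl
  have hint : ∀ i, IsIntegral (𝓞 K) (⟨α i, hmem i⟩ : L) := by
    intro i
    refine ⟨f, hf, ?_⟩
    apply (algebraMap L (AlgebraicClosure K)).injective
    rw [hom_eval₂, map_zero, hcL, ← eval_map, hα]
    exact hev i
  have htow : IsScalarTower ℤ (𝓞 K) L := IsScalarTower.of_algebraMap_eq' (RingHom.ext_int _ _)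
  have hint' : ∀ i, IsIntegral ℤ (⟨α i, hmem i⟩ : L) := fun i =>
    isIntegral_trans (R := ℤ) (A := 𝓞 K) _ (hint i)
  let a : Fin n → 𝓞 L := fun i => ⟨⟨α i, hmem i⟩, hint' i⟩
  have hfa : f.map (algebraMap (𝓞 K) (𝓞 L)) = ∏ i, (X - C (a i)) := by
    have hinj : Function.Injective ((algebraMap L (AlgebraicClosure K)).comp
        (algebraMap (𝓞 L) L)) :=
      (algebraMap L (AlgebraicClosure K)).injective.comp RingOfIntegers.coe_injective
    apply map_injective _ hinj
    rw [Polynomial.map_map, Polynomial.map_prod]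
    have h1 : ((algebraMap L (AlgebraicClosure K)).comp (algebraMap (𝓞 L) L)).comp
      (algebraMap (𝓞 K) (𝓞 L)) = algebraMap (𝓞 K) (AlgebraicClosure K) := by
      ext x
      rfl
    rw [h1, hα]
    apply Finset.prod_congr rfl
    intro i _
    rw [Polynomial.map_sub, map_X, map_C]
    rfl
  obtain ⟨P, hP, hPl, hfin, τ, hτ⟩ := exists_frob K L 𝔭 h0
  let _ : Field (𝓞 L ⧸ P) := Ideal.Quotient.field P
  have hfink : Finite (𝓞 K ⧸ 𝔭) := Ring.HasFiniteQuotients.finiteQuotient h0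
  let hA : Algebra (𝓞 K ⧸ 𝔭) (𝓞 L ⧸ P) := inferInstance
  let r : Fin n → 𝓞 L ⧸ P := fun i => Ideal.Quotient.mk P (a i)
  have hfr : (f.map (Ideal.Quotient.mk 𝔭)).map (algebraMap (𝓞 K ⧸ 𝔭) (𝓞 L ⧸ P))
      = ∏ i, (X - C (r i)) := by
    have h2 := congrArg (Polynomial.map (Ideal.Quotient.mk P)) hfa
    rw [Polynomial.map_map, Polynomial.map_prod] at h2
    rw [Polynomial.map_map]
    have h1 : (algebraMap (𝓞 K ⧸ 𝔭) (𝓞 L ⧸ P)).comp (Ideal.Quotient.mk 𝔭)
      = (Ideal.Quotient.mk P).comp (algebraMap (𝓞 K) (𝓞 L)) := by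
      ext x
      rfl
    rw [h1, h2]
    apply Finset.prod_congr rfl
    intro i _
    rw [Polynomial.map_sub, map_X, map_C]
  have hrinj : Function.Injective r := by
    rw [← separable_prod_X_sub_C_iff, ← hfr]
    let _ : Field (𝓞 K ⧸ 𝔭) := Ideal.Quotient.field 𝔭
    exact hsep.map
  have hτr : ∀ i, Ideal.Quotient.mk P (τ • a i) = r i ^ Nat.card (𝓞 K ⧸ 𝔭) := by
    intro i
    have h1 := hτ (a i)
    rw [← Ideal.Quotient.eq] at h1
    rw [h1, map_pow]
  -- the permutation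
  have hex : ∀ i, ∃ j, τ • a i = a j := by
    intro i
    have h1 : eval (τ • a i) (f.map (algebraMap (𝓞 K) (𝓞 L))) = 0 := by
      have h2 : eval (a i) (f.map (algebraMap (𝓞 K) (𝓞 L))) = 0 := by
        rw [hfa, eval_prod]
        exact Finset.prod_eq_zero (Finset.mem_univ i) (by simp)
      rw [eval_map] at h2 ⊢
      have h3 := congrArg (MulSemiringAction.toRingHom Gal(L/K) (𝓞 L) τ) h2
      rw [hom_eval₂, map_zero] at h3
      have h4 : (MulSemiringAction.toRingHom Gal(L/K) (𝓞 L) τ).comp (algebraMap (𝓞 K) (𝓞 L))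
        = algebraMap (𝓞 K) (𝓞 L) := by
        ext x
        exact congrArg (algebraMap L (AlgebraicClosure K)) (τ.commutes (algebraMap (𝓞 K) K x))
      rw [h4] at h3
      exact h3
    rw [hfa, eval_prod, Finset.prod_eq_zero_iff] at h1
    obtain ⟨j, _, hj⟩ := h1
    refine ⟨j, ?_⟩
    rw [eval_sub, eval_X, eval_C, sub_eq_zero] at hj
    exact hj
  choose s0 hs0 using hex
  have hs0r : ∀ i, r (s0 i) = r i ^ Nat.card (𝓞 K ⧸ 𝔭) := by
    intro i
    rw [← hτr, hs0]
  -- surjectivity of the Frobenius permutation comes from `τ`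
  have hs0inj : Function.Injective s0 := by
    intro i j hij
    have h1 : τ • a i = τ • a j := by rw [hs0, hs0, hij]
    have h2 : a i = a j := smul_left_cancel τ h1
    apply hrinj
    change Ideal.Quotient.mk P (a i) = Ideal.Quotient.mk P (a j)
    rw [h2]
  have hacl : IsAlgClosure K (AlgebraicClosure K) := algcl K
  obtain ⟨σ, hσ⟩ := Pool.Agent.D0H42.SF.lift_aut L.val τ
  refine ⟨𝓞 L ⧸ P, inferInstance, hfin, hA, r,
    Equiv.ofBijective s0 (Finite.injective_iff_bijective.mp hs0inj), σ, hrinj, hfr, ?_, ?_⟩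
  · intro i
    have h1 := hσ ⟨α i, hmem i⟩
    have h5 : τ ⟨α i, hmem i⟩ = algebraMap (𝓞 L) L (a (s0 i)) := by
      rw [← hs0]
      rfl
    exact h1.trans (congrArg L.val h5)
  · intro i
    exact hs0r i

/-- two roots of an irreducible polynomial in a finite field are Frobenius conjugates -/
theorem frob_conj (k : Type) [Field k] [Finite k] (F : Type) [Field F] [Finite F] [Algebra k F]
    (h : k[X]) (hi : Irreducible h) (x y : F) (hx : aeval x h = 0) (hy : aeval y h = 0) :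
    ∃ j : ℕ, y = x ^ (Nat.card k ^ j) := by
  have := Fintype.ofFinite k
  have h1 := minpoly.eq_of_irreducible hi hx
  have h2 := minpoly.eq_of_irreducible hi hy
  have h3 : IsConjRoot k x y := h1.symm.trans h2
  obtain ⟨σ, hσ⟩ := isConjRoot_iff_exists_algEquiv.mp h3.symm
  obtain ⟨j, hj⟩ := (FiniteField.bijective_frobeniusAlgEquivOfAlgebraic_pow k F).2 σ
  refine ⟨j, ?_⟩
  rw [← hσ, ← hj]
  change (FiniteField.frobeniusAlgEquivOfAlgebraic k F ^ (j : ℕ)) x = _
  rw [AlgEquiv.coe_pow, FiniteField.coe_frobeniusAlgEquivOfAlgebraic_iterate,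
    Nat.card_eq_fintype_card]

end Pool.Agent.D0H42.SFK
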