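import Pool.Agent.D0H42.SFK.Frob

/-!
# Project SFK (helper15), module SN: the Galois group from three reductions, over a number field
-/

set_option autoImplicit false

namespace Pool.Agent.D0H42.SFK

open Polynomial NumberField

/-! ### Separability of the reductions -/

/-- type `B`: one linear factor, the rest irreducible -/
def TB (k : Type) [Field k] (g : k[X]) : Prop :=
  ∃ (c : k) (h : k[X]), Irreducible h ∧ 2 ≤ h.natDegree ∧ g = (X - C c) * h

/-- type `C`: one irreducible quadratic factor, the rest distinct linear factors -/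
def TC (k : Type) [Field k] (m : ℕ) (g : k[X]) : Prop :=
  ∃ (h : k[X]) (c : Fin m → k), Irreducible h ∧ h.natDegree = 2 ∧
    Function.Injective c ∧ g = h * ∏ i, (X - C (c i))

section red

variable {k : Type} [Field k] [Finite k]

lemma cop_lin (c : k) (h : k[X]) (hi : Irreducible h)
    (h2 : 2 ≤ h.natDegree) : IsCoprime (X - C c) h := by
  rw [(irreducible_X_sub_C c).coprime_iff_not_dvd, dvd_iff_isRoot]
  exact hi.not_isRoot_of_natDegree_ne_one (by omega)

lemma sepB (g : k[X]) (hg : TB k g) : g.Separable := by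
  obtain ⟨c, h, hi, h2, rfl⟩ := hg
  exact (separable_X_sub_C).mul (PerfectField.separable_of_irreducible hi) (cop_lin c h hi h2)

lemma sepC (m : ℕ) (g : k[X]) (hg : TC k m g) : g.Separable := by
  obtain ⟨h, c, hi, h2, hc, rfl⟩ := hg
  refine (PerfectField.separable_of_irreducible hi).mul (separable_prod_X_sub_C_iff.mpr hc) ?_
  apply IsCoprime.prod_right
  intro i _
  exact (cop_lin (c i) h hi h2.ge).symm

/-! ### The permutations -/

lemma pow_perm {n Q : ℕ} {F : Type} [Field F] (r : Fin n → F) (s : Equiv.Perm (Fin n))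
    (hs : ∀ i, r (s i) = r i ^ Q) (j : ℕ) (i : Fin n) : r ((s ^ j) i) = r i ^ (Q ^ j) := by
  induction j with
  | zero => simp
  | succ j ih =>
    rw [pow_succ', Equiv.Perm.mul_apply, hs, ih, ← pow_mul, pow_succ]

lemma fix_of_base {n : ℕ} {F : Type} [Field F] [Algebra k F]
    (r : Fin n → F) (hr : Function.Injective r) (s : Equiv.Perm (Fin n))
    (hs : ∀ i, r (s i) = r i ^ Nat.card k) (i : Fin n) (c : k) (hc : r i = algebraMap k F c) :
    s i = i := by
  have := Fintype.ofFinite k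
  apply hr
  rw [hs, hc, ← map_pow, Nat.card_eq_fintype_card, FiniteField.pow_card]

lemma permB {n : ℕ} {F : Type} [Field F] [Finite F] [Algebra k F]
    (g : k[X]) (hg : TB k g) (r : Fin n → F) (hr : Function.Injective r)
    (hgr : g.map (algebraMap k F) = ∏ i, (X - C (r i))) (s : Equiv.Perm (Fin n))
    (hs : ∀ i, r (s i) = r i ^ Nat.card k) :
    ∃ i₀, s i₀ = i₀ ∧ ∀ i j, i ≠ i₀ → j ≠ i₀ → ∃ e : ℕ, (s ^ e) i = j := by
  obtain ⟨c, h, hi, h2, rfl⟩ := hg
  have hroot : ∀ x : F, eval x (((X - C c) * h).map (algebraMap k F)) = 0 ↔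
      ∃ i, x = r i := by
    intro x
    rw [hgr, eval_prod, Finset.prod_eq_zero_iff]
    simp only [Finset.mem_univ, true_and, eval_sub, eval_X, eval_C, sub_eq_zero]
  obtain ⟨i₀, hi₀⟩ := (hroot (algebraMap k F c)).1 (by simp)
  refine ⟨i₀, fix_of_base r hr s hs i₀ c hi₀.symm, ?_⟩
  have hh : ∀ i, i ≠ i₀ → aeval (r i) h = 0 := by
    intro i hne
    have h1 := (hroot (r i)).2 ⟨i, rfl⟩
    rw [Polynomial.map_mul, eval_mul, mul_eq_zero] at h1
    rcases h1 with h1 | h1
    · exfalso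
      rw [Polynomial.map_sub, map_X, map_C, eval_sub, eval_X, eval_C, sub_eq_zero, hi₀] at h1
      exact hne (hr h1)
    · rwa [eval_map] at h1
  intro i j hi' hj'
  obtain ⟨e, he⟩ := frob_conj k F h hi (r i) (r j) (hh i hi') (hh j hj')
  refine ⟨e, hr ?_⟩
  rw [pow_perm r s hs, he]

lemma permC {n m : ℕ} {F : Type} [Field F] [Finite F] [Algebra k F]
    (g : k[X]) (hg : TC k m g) (r : Fin n → F) (hr : Function.Injective r)
    (hgr : g.map (algebraMap k F) = ∏ i, (X - C (r i))) (s : Equiv.Perm (Fin n))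
    (hs : ∀ i, r (s i) = r i ^ Nat.card k) :
    ∃ i j, i ≠ j ∧ s i = j ∧ s j = i ∧ ∀ e, e ≠ i → e ≠ j → s e = e := by
  obtain ⟨h, c, hi, h2, hc, rfl⟩ := hg
  have hroot : ∀ x : F, eval x ((h * ∏ l, (X - C (c l))).map (algebraMap k F)) = 0 ↔
      ∃ i, x = r i := by
    intro x
    rw [hgr, eval_prod, Finset.prod_eq_zero_iff]
    simp only [Finset.mem_univ, true_and, eval_sub, eval_X, eval_C, sub_eq_zero]
  -- each root is a root of `h` or in the base field
  have hor : ∀ i, aeval (r i) h = 0 ∨ ∃ l, r i = algebraMap k F (c l) := by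
    intro i
    have h1 := (hroot (r i)).2 ⟨i, rfl⟩
    rw [Polynomial.map_mul, eval_mul, mul_eq_zero] at h1
    rcases h1 with h1 | h1
    · left
      rwa [eval_map] at h1
    · right
      rw [Polynomial.map_prod, eval_prod, Finset.prod_eq_zero_iff] at h1
      obtain ⟨l, _, hl⟩ := h1
      refine ⟨l, ?_⟩
      rwa [Polynomial.map_sub, map_X, map_C, eval_sub, eval_X, eval_C, sub_eq_zero] at hl
  have hdvd : ∀ x : F, aeval x h = 0 → ∃ i, x = r i := by
    intro x hx
    apply (hroot x).1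
    rw [Polynomial.map_mul, eval_mul, eval_map, ← aeval_def, hx, zero_mul]
  -- the two roots of `h`
  have hspl : (h.map (algebraMap k F)).Splits := by
    have h3 : ((h * ∏ l, (X - C (c l))).map (algebraMap k F)).Splits := by
      rw [hgr]
      exact Splits.prod fun i _ => Splits.X_sub_C _
    refine h3.of_dvd ?_ ?_
    · rw [hgr]
      exact (monic_prod_of_monic _ _ fun i _ => monic_X_sub_C _).ne_zero
    · rw [Polynomial.map_mul]
      exact dvd_mul_right _ _
  have hcard : Fintype.card (h.rootSet F) = 2 := by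
    rw [card_rootSet_eq_natDegree (PerfectField.separable_of_irreducible hi) hspl, h2]
  have hcard' : Nat.card (h.rootSet F) = 2 := by rw [Nat.card_eq_fintype_card, hcard]
  obtain ⟨x, y, hxy, hU⟩ := Set.ncard_eq_two.mp (show (h.rootSet F).ncard = 2 from hcard')
  have hx : aeval x h = 0 := by
    have : x ∈ h.rootSet F := by rw [hU]; simp
    exact (mem_rootSet.mp this).2
  have hy : aeval y h = 0 := by
    have : y ∈ h.rootSet F := by rw [hU]; simp
    exact (mem_rootSet.mp this).2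
  have hxy' : ∀ z : F, aeval z h = 0 → z = x ∨ z = y := by
    intro z hz
    have h4 : z ∈ h.rootSet F := mem_rootSet.mpr ⟨hi.ne_zero, hz⟩
    rw [hU] at h4
    simpa using h4
  obtain ⟨i, rfl⟩ := hdvd x hx
  obtain ⟨j, rfl⟩ := hdvd y hy
  have hij : i ≠ j := fun h => hxy (by rw [h])
  have hfix : ∀ e, e ≠ i → e ≠ j → s e = e := by
    intro e hki hkj
    rcases hor e with h1 | ⟨l, hl⟩
    · rcases hxy' _ h1 with h1 | h1
      · exact absurd (hr h1) hki
      · exact absurd (hr h1) hkj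
    · exact fix_of_base r hr s hs e (c l) hl
  have hnf : ∀ i j, i ≠ j → aeval (r i) h = 0 → aeval (r j) h = 0 → s i ≠ i := by
    intro i j hij hx hy hsi
    obtain ⟨e, he⟩ := frob_conj k F h hi (r i) (r j) hx hy
    rw [← pow_perm r s hs e i] at he
    have h5 : (s ^ e) i = i := by
      induction e with
      | zero => rfl
      | succ e ih =>
        clear he
        have h6 : (s ^ e) i = i := by
          clear ih
          induction e with
          | zero => rfl
          | succ e ih => rw [pow_succ', Equiv.Perm.mul_apply, ih, hsi]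
        rw [pow_succ', Equiv.Perm.mul_apply, h6, hsi]
    rw [h5] at he
    exact hij (hr he).symm
  have hsi : s i = j := by
    by_contra hne
    have h1 := hnf i j hij hx hy
    have h2 := hfix (s i) h1 hne
    exact h1 (s.injective h2)
  have hsj : s j = i := by
    by_contra hne
    have h1 := hnf j i hij.symm hy hx
    have h2 := hfix (s j) hne h1
    exact h1 (s.injective h2)
  exact ⟨i, j, hij, hsi, hsj, hfix⟩

end red

/-! ### The three reductions force the symmetric group -/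

theorem main_sym (K : Type) [Field K] [NumberField K] (f : (𝓞 K)[X]) (hf : f.Monic)
    (hirr : Irreducible (f.map (algebraMap (𝓞 K) K))) (P₂ P₃ : Ideal (𝓞 K)) (m : ℕ)
    [M2 : P₂.IsMaximal] [M3 : P₃.IsMaximal] (h02 : P₂ ≠ ⊥) (h03 : P₃ ≠ ⊥)
    (h2 : letI := Ideal.Quotient.field P₂; TB (𝓞 K ⧸ P₂) (f.map (Ideal.Quotient.mk P₂)))
    (h3 : letI := Ideal.Quotient.field P₃; TC (𝓞 K ⧸ P₃) m (f.map (Ideal.Quotient.mk P₃)))
    (θ : AlgebraicClosure K) (hθ : aeval θ (f.map (algebraMap (𝓞 K) K)) = 0) :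
    ∀ τ : Equiv.Perm (IntermediateField.adjoin K {θ} →ₐ[K] AlgebraicClosure K),
      ∃ σ : AlgebraicClosure K ≃ₐ[K] AlgebraicClosure K,
        ∀ φ : IntermediateField.adjoin K {θ} →ₐ[K] AlgebraicClosure K,
          τ φ = σ.toAlgHom.comp φ := by
  classical
  have hacl : IsAlgClosure K (AlgebraicClosure K) := algcl K
  have hnor : Normal K (AlgebraicClosure K) := IsAlgClosure.normal K _
  obtain ⟨fQ, hfQ⟩ : ∃ fQ : K[X], fQ = f.map (algebraMap (𝓞 K) K) := ⟨_, rfl⟩
  rw [← hfQ] at hirr hθ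
  have hfQm : fQ.Monic := by rw [hfQ]; exact hf.map _
  obtain ⟨α, hαi, hα⟩ := Pool.Agent.D0H42.SF.roots_fam fQ fQ.natDegree hfQm rfl hirr
    (IsAlgClosed.splits (fQ.map (algebraMap K (AlgebraicClosure K))))
  have hfα : f.map (algebraMap (𝓞 K) (AlgebraicClosure K)) = ∏ i, (X - C (α i)) := by
    rw [← hα, hfQ, Polynomial.map_map, ← IsScalarTower.algebraMap_eq]
  have hrQ : ∀ z : AlgebraicClosure K, aeval z fQ = 0 ↔ ∃ i, z = α i := by
    intro z
    rw [← eval_map_algebraMap, hα, eval_prod, Finset.prod_eq_zero_iff]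
    simp only [Finset.mem_univ, true_and, eval_sub, eval_X, eval_C, sub_eq_zero]
  have hmin : ∀ z : AlgebraicClosure K, aeval z fQ = 0 → minpoly K z = fQ := fun z hz =>
    (minpoly.eq_of_irreducible_of_monic hirr hz hfQm).symm
  have htr : ∀ i j, ∃ σ : AlgebraicClosure K ≃ₐ[K] AlgebraicClosure K, σ (α i) = α j := by
    intro i j
    have h1 : IsConjRoot K (α j) (α i) :=
      (hmin _ ((hrQ _).2 ⟨j, rfl⟩)).trans (hmin _ ((hrQ _).2 ⟨i, rfl⟩)).symm
    exact isConjRoot_iff_exists_algEquiv.mp h1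
  -- the image of a root
  have him : ∀ (σ : AlgebraicClosure K ≃ₐ[K] AlgebraicClosure K) (i), ∃ j, σ (α i) = α j := by
    intro σ i
    apply (hrQ _).1
    rw [aeval_algEquiv, AlgHom.comp_apply, (hrQ _).2 ⟨i, rfl⟩]
    exact map_zero _
  let I2 : Field (𝓞 K ⧸ P₂) := Ideal.Quotient.field P₂
  let I3 : Field (𝓞 K ⧸ P₃) := Ideal.Quotient.field P₃
  have F2 : Finite (𝓞 K ⧸ P₂) := Ring.HasFiniteQuotients.finiteQuotient h02
  have F3 : Finite (𝓞 K ⧸ P₃) := Ring.HasFiniteQuotients.finiteQuotient h03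
  obtain ⟨K₂, _, _, _, r₂, s₂, σ₂, hr₂, hgr₂, hσ₂, hs₂⟩ :=
    frob_roots K f hf _ α hfα P₂ h02 (sepB _ h2)
  obtain ⟨K₃, _, _, _, r₃, s₃, σ₃, hr₃, hgr₃, hσ₃, hs₃⟩ :=
    frob_roots K f hf _ α hfα P₃ h03 (sepC _ _ h3)
  obtain ⟨i₀, hi₀, hB⟩ := permB _ h2 r₂ hr₂ hgr₂ s₂ hs₂
  obtain ⟨i₁, j₁, hij₁, hC1, hC2, hC3⟩ := permC _ h3 r₃ hr₃ hgr₃ s₃ hs₃
  have hpow : ∀ (k : ℕ) i, (σ₂ ^ k) (α i) = α ((s₂ ^ k) i) := by
    intro k
    induction k with
    | zero => intro i; rfl
    | succ k ih =>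
      intro i
      rw [pow_succ', pow_succ', AlgEquiv.mul_apply, Equiv.Perm.mul_apply, ih, hσ₂]
  have hfixk : ∀ k : ℕ, (s₂ ^ k) i₀ = i₀ := by
    intro k
    induction k with
    | zero => rfl
    | succ k ih => rw [pow_succ', Equiv.Perm.mul_apply, ih, hi₀]
  -- double transitivity
  have hdt : ∀ i j i' j', i ≠ j → i' ≠ j' →
      ∃ σ : AlgebraicClosure K ≃ₐ[K] AlgebraicClosure K, σ (α i) = α i' ∧ σ (α j) = α j' := by
    intro i j i' j' hij hij'
    obtain ⟨τ, hτ⟩ := htr i i₀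
    obtain ⟨τ', hτ'⟩ := htr i' i₀
    obtain ⟨u, hu⟩ := him τ j
    obtain ⟨v, hv⟩ := him τ' j'
    have hu0 : u ≠ i₀ := by
      rintro rfl
      apply hij
      apply hαi
      apply τ.injective
      rw [hτ, hu]
    have hv0 : v ≠ i₀ := by
      rintro rfl
      apply hij'
      apply hαi
      apply τ'.injective
      rw [hτ', hv]
    obtain ⟨k, hk⟩ := hB u v hu0 hv0
    refine ⟨τ'.symm * (σ₂ ^ k) * τ, ?_, ?_⟩
    · rw [AlgEquiv.mul_apply, AlgEquiv.mul_apply, hτ, hpow, hfixk, ← hτ', AlgEquiv.symm_apply_apply]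
    · rw [AlgEquiv.mul_apply, AlgEquiv.mul_apply, hu, hpow, hk, ← hv, AlgEquiv.symm_apply_apply]
  obtain ⟨iθ, hiθ⟩ := (hrQ θ).1 hθ
  have hθint : IsIntegral K θ := ⟨fQ, hfQm, by rw [← aeval_def]; exact hθ⟩
  have hfd : FiniteDimensional K (IntermediateField.adjoin K {θ}) :=
    IntermediateField.adjoin.finiteDimensional hθint
  let g : IntermediateField.adjoin K {θ} := IntermediateField.AdjoinSimple.gen K θ
  have hg : ∀ φ : IntermediateField.adjoin K {θ} →ₐ[K] AlgebraicClosure K, ∃ i, φ g = α i := by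
    intro φ
    apply (hrQ _).1
    have h1 : aeval g fQ = 0 := by
      apply (algebraMap (IntermediateField.adjoin K {θ}) (AlgebraicClosure K)).injective
      rw [map_zero, ← aeval_algebraMap_apply]
      exact hθ
    rw [aeval_algHom_apply, h1, map_zero]
  have hext : ∀ φ ψ : IntermediateField.adjoin K {θ} →ₐ[K] AlgebraicClosure K, φ g = ψ g →
      φ = ψ := by
    intro φ ψ h
    apply IntermediateField.algHom_ext_of_eq_adjoin K rfl
    intro x hx
    rw [Set.mem_singleton_iff] at hx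
    subst hx
    exact h
  have hemb : ∀ i, ∃ φ : IntermediateField.adjoin K {θ} →ₐ[K] AlgebraicClosure K, φ g = α i := by
    intro i
    obtain ⟨τ, hτ⟩ := htr iθ i
    refine ⟨τ.toAlgHom.comp (IntermediateField.adjoin K {θ}).val, ?_⟩
    change τ θ = α i
    rw [hiθ, hτ]
  apply Pool.Agent.D0H42.SF.sym_of
  · intro φ ψ φ' ψ' h1 h2
    obtain ⟨i, hi⟩ := hg φ
    obtain ⟨j, hj⟩ := hg ψ
    obtain ⟨i', hi'⟩ := hg φ'
    obtain ⟨j', hj'⟩ := hg ψ'
    obtain ⟨σ, e1, e2⟩ := hdt i j i' j' (fun h => h1 (hext _ _ (by rw [hi, hj, h])))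
      (fun h => h2 (hext _ _ (by rw [hi', hj', h])))
    refine ⟨σ, hext _ _ ?_, hext _ _ ?_⟩
    · exact (congrArg σ hi).trans (e1.trans hi'.symm)
    · exact (congrArg σ hj).trans (e2.trans hj'.symm)
  · obtain ⟨φ, hφ⟩ := hemb i₁
    obtain ⟨ψ, hψ⟩ := hemb j₁
    refine ⟨σ₃, φ, ψ, ?_, hext _ _ ?_, hext _ _ ?_, ?_⟩
    · rintro rfl
      exact hij₁ (hαi (hφ.symm.trans hψ))
    · exact (congrArg σ₃ hφ).trans ((hσ₃ i₁).trans ((congrArg α hC1).trans hψ.symm))
    · exact (congrArg σ₃ hψ).trans ((hσ₃ j₁).trans ((congrArg α hC2).trans hφ.symm))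
    · intro χ h1 h2
      obtain ⟨k, hk⟩ := hg χ
      apply hext
      have h3 : s₃ k = k := hC3 k (fun h => h1 (hext _ _ (by rw [hk, hφ, h])))
        (fun h => h2 (hext _ _ (by rw [hk, hψ, h])))
      exact (congrArg σ₃ hk).trans ((hσ₃ k).trans ((congrArg α h3).trans hk.symm))

end Pool.Agent.D0H42.SFK
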